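import Pool.Agent.H5.OR.Targets3

/-!
# MP_e1fd52_al, board ors_modules, row KN
-/

set_option autoImplicit false

open scoped Classical

namespace Pool.Agent.H1.ORS.KNf

open ORg

theorem root_set (N : ℕ) (hN : 0 < N) : {x : ℂˣ | x ^ N = 1}.Finite ∧
    {x : ℂˣ | x ^ N = 1}.ncard = N := by
  haveI : NeZero N := ⟨by omega⟩
  have h1 : {x : ℂˣ | x ^ N = 1} = (rootsOfUnity N ℂ : Set ℂˣ) := by
    ext x
    rw [Set.mem_ofPred_eq, SetLike.mem_coe, mem_rootsOfUnity]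
  have h2 : Nat.card (rootsOfUnity N ℂ) = N := Complex.card_rootsOfUnity N
  have h3 : {x : ℂˣ | x ^ N = 1}.ncard = N := by
    rw [h1, ← Nat.card_coe_set_eq]
    exact h2
  exact ⟨Set.finite_of_ncard_pos (by omega), h3⟩

theorem cnt (N m : ℕ) (hN : 0 < N) (hm : 0 < m) (hmN : m ∣ N) :
    Nat.card {x : ℂˣ // x ^ N = 1 ∧ (x ^ m = 1 → x = 1)} = N - m + 1 := by
  obtain ⟨fN, cN⟩ := root_set N hN
  obtain ⟨fm, cm⟩ := root_set m hm
  have h1 : Nat.card {x : ℂˣ // x ^ N = 1 ∧ (x ^ m = 1 → x = 1)} =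
      {x : ℂˣ | x ^ N = 1 ∧ (x ^ m = 1 → x = 1)}.ncard := Nat.card_coe_set_eq _
  have h2 : {x : ℂˣ | x ^ N = 1 ∧ (x ^ m = 1 → x = 1)} =
      insert 1 ({x : ℂˣ | x ^ N = 1} \ {x : ℂˣ | x ^ m = 1}) := by
    ext x
    simp only [Set.mem_ofPred_eq, Set.mem_insert_iff, Set.mem_sdiff]
    constructor
    · rintro ⟨h3, h4⟩
      by_cases hx : x ^ m = 1
      · exact Or.inl (h4 hx)
      · exact Or.inr ⟨h3, hx⟩
    · rintro (rfl | ⟨h3, h4⟩)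
      · exact ⟨one_pow _, fun _ => rfl⟩
      · exact ⟨h3, fun h => absurd h h4⟩
  have hsub : {x : ℂˣ | x ^ m = 1} ⊆ {x : ℂˣ | x ^ N = 1} := by
    intro x hx
    obtain ⟨d, rfl⟩ := hmN
    have hx' : x ^ m = 1 := hx
    show x ^ (m * d) = 1
    rw [pow_mul, hx', one_pow]
  rw [h1, h2, Set.ncard_insert_of_notMem (by
    rintro ⟨-, h⟩
    exact h (one_pow _)) (fN.subset Set.sdiff_subset), Set.ncard_sdiff hsub fm, cN, cm]

theorem cnt2 (N : ℕ) (hN : 0 < N) : Nat.card {x : ℂˣ // x ^ N = 1} = N := by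
  obtain ⟨_, cN⟩ := root_set N hN
  exact (Nat.card_coe_set_eq _).trans cN

theorem cnt1 : Nat.card {x : ℂˣ // x = 1} = 1 := by
  rw [Nat.card_eq_one_iff_unique]
  exact ⟨⟨fun x y => Subtype.ext (x.2.trans y.2.symm)⟩, ⟨⟨1, rfl⟩⟩⟩

theorem cardProd (P Q : ℂˣ → Prop) : Nat.card {z : ℂˣ × ℂˣ // P z.1 ∧ Q z.2} =
    Nat.card {x : ℂˣ // P x} * Nat.card {x : ℂˣ // Q x} := by
  rw [← Nat.card_prod]
  exact Nat.card_congr Equiv.subtypeProdEquivProd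

theorem pf_KN (KH : T_KH) (KJ : T_KJ) : T_KN := by
  intro k p hk hp
  obtain ⟨_, h2, h3⟩ := KH k p p
  have hbij : Function.Bijective (fun ρ : KP k p p →* ℂˣ => (ρ (kg true), ρ (kg false))) := by
    constructor
    · intro ρ ρ' h
      exact h3 ℂˣ ρ ρ' (congrArg Prod.fst h) (congrArg Prod.snd h)
    · rintro ⟨x, y⟩
      obtain ⟨f, hf1, hf2⟩ := h2 ℂˣ x y (by rw [mul_comm, inv_mul_cancel_left])
      exact ⟨f, Prod.ext hf1 hf2⟩
  set E : (KP k p p →* ℂˣ) ≃ ℂˣ × ℂˣ := Equiv.ofBijective _ hbij with hE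
  have hone : ∀ ρ : KP k p p →* ℂˣ, ρ = 1 ↔ ρ (kg true) = 1 ∧ ρ (kg false) = 1 := by
    intro ρ
    constructor
    · rintro rfl
      exact ⟨rfl, rfl⟩
    · rintro ⟨h4, h5⟩
      exact h3 ℂˣ ρ 1 h4 h5
  have hpow : ∀ (N : ℕ) (ρ : KP k p p →* ℂˣ), ρ ^ N = 1 ↔
      ρ (kg true) ^ N = 1 ∧ ρ (kg false) ^ N = 1 := fun N ρ => hone (ρ ^ N)
  have hpC : (p : ℂ) ≠ 0 := by exact_mod_cast hp
  have hJ : ∀ ρ : KP k p p →* ℂˣ, ρ ≠ 1 → (Jmp ρ ↔
      (ρ (kg false) ^ p.natAbs = 1 ∧ ρ (kg false) ≠ 1) ∨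
      (ρ (kg true) ^ k = 1 ∧ ρ (kg true) ≠ 1)) := by
    intro ρ hρ
    rw [KJ k p p ρ hk hp hp hρ]
    by_cases hal : ρ (kg false) = 1
    · have hxi : ρ (kg true) ≠ 1 := fun h => hρ ((hone ρ).2 ⟨h, hal⟩)
      have h4 : ((ρ (kg true) : ℂˣ) : ℂ) ^ k * p = p ↔ ρ (kg true) ^ k = 1 := by
        rw [mul_eq_right₀ hpC, ← Units.val_pow_eq_pow_val, Units.val_eq_one]
      rw [h4]
      simp only [hal, ne_eq, not_true_eq_false, and_false, false_and, or_false, false_or, true_and,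
        hxi, not_false_eq_true, and_true]
    · rw [pow_natAbs_eq_one]
      simp only [hal, ne_eq, false_and, false_or, not_false_eq_true, true_and, and_true]
  have hP : 0 < p.natAbs := Int.natAbs_pos.2 hp
  refine ⟨fun N hN hkN hpN => ?_, ?_, ?_⟩
  · rw [← cnt N k hN hk hkN, ← cnt N p.natAbs hN hP hpN, ← cardProd]
    refine Nat.card_congr (Equiv.subtypeEquiv E fun ρ => ?_)
    show _ ↔ (ρ (kg true) ^ N = 1 ∧ (ρ (kg true) ^ k = 1 → ρ (kg true) = 1)) ∧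
      (ρ (kg false) ^ N = 1 ∧ (ρ (kg false) ^ p.natAbs = 1 → ρ (kg false) = 1))
    rw [hpow]
    by_cases hρ : ρ = 1
    · obtain ⟨h4, h5⟩ := (hone ρ).1 hρ
      rw [h4, h5]
      simp [hρ]
    · rw [hJ ρ hρ]
      simp only [hρ, false_or]
      tauto
  · have e1 : Nat.card {z : ℂˣ × ℂˣ // z.1 = 1 ∧ z.2 ^ p.natAbs = 1} = p.natAbs := by
      rw [cardProd (fun x => x = 1) (fun x => x ^ p.natAbs = 1), cnt1, one_mul, cnt2 _ hP]
    refine Eq.trans ?_ e1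
    refine Nat.card_congr (Equiv.subtypeEquiv E fun ρ => ?_)
    show _ ↔ ρ (kg true) = 1 ∧ ρ (kg false) ^ p.natAbs = 1
    by_cases hρ : ρ = 1
    · obtain ⟨h4, h5⟩ := (hone ρ).1 hρ
      rw [h4, h5]
      simp [hρ]
    · rw [hJ ρ hρ]
      have := hone ρ
      simp only [hρ, false_or]
      tauto
  · have e1 : Nat.card {z : ℂˣ × ℂˣ // z.1 ^ k = 1 ∧ z.2 = 1} = k := by
      rw [cardProd (fun x => x ^ k = 1) (fun x => x = 1), cnt1, mul_one, cnt2 _ hk]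
    refine Eq.trans ?_ e1
    refine Nat.card_congr (Equiv.subtypeEquiv E fun ρ => ?_)
    show _ ↔ ρ (kg true) ^ k = 1 ∧ ρ (kg false) = 1
    by_cases hρ : ρ = 1
    · obtain ⟨h4, h5⟩ := (hone ρ).1 hρ
      rw [h4, h5]
      simp [hρ]
    · rw [hJ ρ hρ]
      have := hone ρ
      simp only [hρ, false_or]
      tauto

end Pool.Agent.H1.ORS.KNf
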