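import Pool.Agent.H5.OR.Targets3
import Pool.Agent.H5.OR.All

/-!
# MP_e1fd52_al, board ors_modules, row M2
-/

set_option autoImplicit false

open scoped Classical

namespace Pool.Agent.H1.ORS.M2f

open ORg

theorem fl_inj {X Y : Type} : Function.Injective (fl : FreeGroup X →* FreeGroup (X ⊕ Y)) :=
  FreeGroup.map_injective Sum.inl_injective

theorem pf_M2 : T_M2 := by
  intro I X Z P G _ _ w a iF iP S r b h i v hv ⟨x, hx1, hxv⟩
  obtain ⟨_, _, _, _, t5, _, _, _, t9, _⟩ := ORg.All.TA G S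
  obtain ⟨_, _, n3⟩ := ORg.All.TN G S
  have hg1 : iF i (fl x) ≠ 1 := by
    intro h1
    apply hx1
    apply fl_inj (Y := Z i)
    rw [map_one]
    apply h.injF i
    rw [h1, map_one]
  have hb : iF i (fl x) • b i = b i := (h.am.stB i _).2 ⟨fl x, rfl⟩
  have hblue : ¬ S.red (b i) := (S.red_adj _ _ (h.am.adj i)).1 h.am.red
  have hne : b i ≠ v := by
    intro h1
    rw [h1] at hblue
    exact hblue hv
  obtain ⟨c, hc, hc2⟩ := t9 (b i) v hne
  have h3 := n3 (iF i (fl x)) v (b i) c (b i) hxv hb hc.symm hc2 (t5 (b i) c hc).1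
  have hcr : S.red c := (S.red_adj _ _ hc.symm).2 hblue
  have hcv : c = v := h.ac _ hg1 c v hcr hv h3.1 hxv
  have hadj : S.T.Adj v (b i) := by
    rw [← hcv]
    exact hc.symm
  obtain ⟨g0, j, hg0r, hg0b⟩ := h.am.edge _ _ hv hadj
  have hji : j = i := h.am.orb j i g0 hg0b.symm
  subst hji
  obtain ⟨y0, hy0⟩ := (h.am.stB j g0).1 hg0b.symm
  -- an element which fixes `v`
  have key : ∀ z : FreeGroup (X j), iF j (fl z) • v = v →
      ∃ k : ℤ, y0⁻¹ * fl z * y0 = fl (w j) ^ k := by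
    intro z hz
    have h4 : iF j (y0⁻¹ * fl z * y0) • r = r := by
      rw [map_mul, map_mul, map_inv, hy0, mul_smul, mul_smul, ← hg0r, hz, hg0r, inv_smul_smul]
    obtain ⟨p, hp⟩ := (h.am.stA _).1 h4
    obtain ⟨k, hk, _⟩ := h.inter j _ p hp.symm
    exact ⟨k, hk⟩
  obtain ⟨m, hm⟩ := key x hxv
  have hwm : w j ^ m ≠ 1 := by
    intro h1
    have h2 : y0⁻¹ * fl x * y0 = 1 := by rw [hm, ← map_zpow, h1, map_one]
    have h5 : (fl x : FreeGroup (X j ⊕ Z j)) = 1 := by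
      have : (fl x : FreeGroup (X j ⊕ Z j)) = y0 * (y0⁻¹ * fl x * y0) * y0⁻¹ := by group
      rw [this, h2]
      group
    apply hx1
    apply fl_inj (Y := Z j)
    rw [map_one]
    exact h5
  obtain ⟨y, hy⟩ := ORg.All.FF (X j) (Z j) y0 (w j ^ m) x hwm (by
    rw [map_zpow, ← hm]
    group)
  refine ⟨y, ?_, fun z hz => ?_⟩
  · rw [← hy, hy0]
    exact hg0r
  · obtain ⟨k, hk⟩ := key z hz
    refine Subgroup.mem_zpowers_iff.2 ⟨k, ?_⟩
    apply fl_inj (Y := Z j)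
    rw [map_zpow, ← hk, hy]
    simp only [map_mul, map_inv]

end Pool.Agent.H1.ORS.M2f
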