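import Pool.Agent.H5.OR.Targets3
import Pool.Agent.H5.OR.All

/-!
# MP_e1fd52_al, board ors_modules, row M5
-/

set_option autoImplicit false

open scoped Classical

namespace Pool.Agent.H1.ORS.M5f

open ORg

theorem ne_one_of_root {X : Type} {w : FreeGroup X} (h : Root w) : w ≠ 1 := by
  intro h1
  have h2 := h 1 0 (by rw [h1]; simp)
  omega

theorem fl_inj {X Y : Type} : Function.Injective (fl : FreeGroup X →* FreeGroup (X ⊕ Y)) :=
  FreeGroup.map_injective Sum.inl_injective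

theorem pf_M5 (M4 : T_M4) : T_M5 := by
  intro I X Z P G _ _ w a iF iP S r b I' X' Z' P' G' _ _ w' a' iF' iP' S' r' b' h h' φ hP i hnt
  obtain ⟨v, hv, hfix⟩ := M4 I X Z P G w a iF iP S r b I' X' Z' P' G' w' a' iF' iP' S' r' b' h h'
    φ hP i hnt
  obtain ⟨_, _, _, _, t5, _, _, _, t9, _⟩ := ORg.All.TA G' S'
  obtain ⟨_, _, n3⟩ := ORg.All.TN G' S'
  have hw : w i ≠ 1 := ne_one_of_root (h.hy.root i)
  have hx : φ (iF i (fl (w i))) ≠ 1 := by
    intro h1
    apply hw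
    apply fl_inj (Y := Z i)
    rw [map_one]
    apply h.injF i
    rw [map_one]
    apply φ.injective
    rw [h1, map_one]
  have hxr : φ (iF i (fl (w i))) • r' = r' := by
    rw [h'.am.stA, h.eq, ← hP]
    exact ⟨a i, rfl⟩
  have hne : v ≠ r' := by
    intro h1
    rw [h1] at hv
    exact hv h'.am.red
  obtain ⟨c, hc, hc2⟩ := t9 v r' hne
  have h3 := n3 (φ (iF i (fl (w i)))) r' v c v hxr (hfix (w i)) hc.symm hc2 (t5 v c hc).1
  have hcr : S'.red c := (S'.red_adj _ _ hc.symm).2 hv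
  have hcr' : c = r' := h'.ac _ hx c r' hcr h'.am.red h3.1 hxr
  have hadj : S'.T.Adj r' v := by
    rw [← hcr']
    exact hc.symm
  obtain ⟨k, j, hk1, hk2⟩ := h'.am.edge _ _ h'.am.red hadj
  have hk : k ∈ iP'.range := (h'.am.stA k).1 hk1.symm
  refine ⟨j, k⁻¹, inv_mem hk, fun y => ?_⟩
  rw [← h'.am.stB j, inv_inv, mul_smul, mul_smul, ← hk2, hfix y, hk2, inv_smul_smul]

end Pool.Agent.H1.ORS.M5f
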